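import Pool.Agent.Helper54.FP.Inst

/-!
# FP-15: the homomorphism `k[z]⟦t⟧[1/t] → L((t))`, `z ↦ y t`
-/

set_option autoImplicit false
set_option linter.unusedVariables false
open Finset

namespace Pool.Agent.Helper54.FP

/-- `k[z] → L⟦t⟧`, `z ↦ y t` -/
private noncomputable def homE1_phi {k L : Type} [Field k] [Field L] (ι : k →+* L) (y : L) :
    Polynomial k →+* PowerSeries L :=
  Polynomial.eval₂RingHom (PowerSeries.C.comp ι) (PowerSeries.C y * PowerSeries.X)

private theorem homE1_coeff {k L : Type} [Field k] [Field L] (ι : k →+* L) (y : L)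
    (f : Polynomial k) (n : ℕ) :
    PowerSeries.coeff n (homE1_phi ι y f) = ι (f.coeff n) * y ^ n := by
  induction f using Polynomial.induction_on' with
  | add p q hp hq =>
    rw [map_add, map_add, hp, hq, Polynomial.coeff_add, map_add, add_mul]
  | monomial m a =>
    rw [homE1_phi, Polynomial.coe_eval₂RingHom, Polynomial.eval₂_monomial, mul_pow,
      RingHom.comp_apply, ← map_pow, ← mul_assoc, ← map_mul, PowerSeries.coeff_C_mul,
      PowerSeries.coeff_X_pow, Polynomial.coeff_monomial]
    by_cases h : n = m
    · subst h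
      simp
    · rw [if_neg h, if_neg (fun h' => h h'.symm)]
      simp

private theorem homE1_ext_coeff {k L : Type} [Field k] [Field L] (ι : k →+* L) (y : L)
    (F : Pk k) (n : ℕ) :
    PowerSeries.coeff n (ext (homE1_phi ι y) F) =
      ∑ ij ∈ antidiagonal n, ι ((PowerSeries.coeff ij.1 F).coeff ij.2) * y ^ ij.2 := by
  rw [coeff_ext]
  exact Finset.sum_congr rfl fun ij _ => homE1_coeff ι y _ _

private theorem homE1_ext_injective {k L : Type} [Field k] [Field L] (ι : k →+* L) (y : L)
    (hy : Function.Injective (Polynomial.eval₂RingHom ι y)) :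
    Function.Injective (ext (homE1_phi ι y)) := by
  rw [injective_iff_map_eq_zero]
  intro F hF
  have key : ∀ n : ℕ, ∀ ij ∈ antidiagonal n, (PowerSeries.coeff ij.1 F).coeff ij.2 = 0 := by
    intro n ij hij
    have h1 := homE1_ext_coeff ι y F n
    rw [hF, map_zero] at h1
    have h2 : (∑ ij ∈ antidiagonal n, Polynomial.monomial ij.2
        ((PowerSeries.coeff ij.1 F).coeff ij.2) : Polynomial k) = 0 := by
      apply hy
      rw [map_zero, map_sum, h1]
      refine Finset.sum_congr rfl fun ij _ => ?_
      rw [Polynomial.coe_eval₂RingHom, Polynomial.eval₂_monomial]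
    have h3 := congrArg (fun q : Polynomial k => q.coeff ij.2) h2
    simp only [Polynomial.finsetSum_coeff, Polynomial.coeff_monomial, Polynomial.coeff_zero] at h3
    rw [Finset.sum_eq_single ij] at h3
    · simpa using h3
    · intro b hb hne
      rw [if_neg]
      intro h
      apply hne
      rw [HasAntidiagonal.mem_antidiagonal] at hb hij
      ext
      · omega
      · exact h
    · intro h
      exact absurd hij h
  ext i j
  rw [map_zero, Polynomial.coeff_zero]
  exact key (i + j) (i, j) (HasAntidiagonal.mem_antidiagonal.2 rfl)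

theorem exists_e1 {k L : Type} [Field k] [Field L] (ι : k →+* L) (y : L)
    (hy : Function.Injective (Polynomial.eval₂RingHom ι y)) :
    ∃ e : R1 k →+* LaurentSeries L, Function.Injective e ∧ e.comp (c1 k) = lm ι ∧
      e (z1 k) = HahnSeries.C y * HahnSeries.single 1 1 ∧
      ∀ δ : L →+* L, δ.comp ι = ι → δ y = y → (lm δ).comp e = e := by
  set E0 : Pk k →+* PowerSeries L := ext (homE1_phi ι y) with hE0
  have hX : E0 PowerSeries.X = PowerSeries.X := ext_X _
  have hu : IsUnit (((algebraMap (PowerSeries L) (LaurentSeries L)).comp E0) PowerSeries.X) := by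
    rw [RingHom.comp_apply, hX]
    exact isUnit_ofX L
  set e : R1 k →+* LaurentSeries L := IsLocalization.Away.lift (PowerSeries.X : Pk k)
    (g := (algebraMap (PowerSeries L) (LaurentSeries L)).comp E0) hu with he
  have he1 : ∀ F : Pk k, e (algebraMap (Pk k) (R1 k) F) =
      algebraMap (PowerSeries L) (LaurentSeries L) (E0 F) := by
    intro F
    rw [he, IsLocalization.Away.lift_eq, RingHom.comp_apply]
  have hlm : ∀ (K M : Type) [Field K] [Field M] (κ : K →+* M) (F : PowerSeries K),
      lm κ (algebraMap (PowerSeries K) (LaurentSeries K) F) =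
        algebraMap (PowerSeries M) (LaurentSeries M) (PowerSeries.map κ F) := by
    intro K M _ _ κ F
    rw [lm, lK_algebraMap, RingHom.comp_apply]
  have hinj : Function.Injective (algebraMap (PowerSeries L) (LaurentSeries L)) := by
    rw [LaurentSeries.coe_algebraMap]
    exact HahnSeries.ofPowerSeries_injective
  refine ⟨e, ?_, ?_, ?_, ?_⟩
  · rw [injective_iff_map_eq_zero]
    intro r hr
    obtain ⟨n, a, ha⟩ := IsLocalization.Away.surj (PowerSeries.X : Pk k) r
    have h1 : a = 0 := by
      apply homE1_ext_injective ι y hy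
      apply hinj
      rw [← hE0, ← he1, ← ha, map_mul, hr, zero_mul, map_zero, map_zero]
    rw [h1, map_zero] at ha
    have h2 : IsUnit (algebraMap (Pk k) (R1 k) PowerSeries.X ^ n) := (isUnit_R1_X k).pow n
    exact (h2.mul_left_eq_zero).1 ha
  · apply IsLocalization.ringHom_ext (Submonoid.powers (PowerSeries.X : PowerSeries k))
    ext1 F
    rw [RingHom.comp_apply, RingHom.comp_apply, RingHom.comp_apply, hlm, c1, lK_algebraMap,
      RingHom.comp_apply, he1]
    congr 1
    ext n
    rw [hE0, homE1_ext_coeff, PowerSeries.coeff_map, Finset.sum_eq_single (n, 0)]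
    · simp
    · rintro ⟨i, j⟩ hij hne
      rw [HasAntidiagonal.mem_antidiagonal] at hij
      dsimp only at hij ⊢
      have hj : j ≠ 0 := by
        rintro rfl
        apply hne
        rw [← hij, add_zero]
      rw [PowerSeries.coeff_map, Polynomial.coeff_C, if_neg hj, map_zero, zero_mul]
    · intro h
      exact absurd (HasAntidiagonal.mem_antidiagonal.2 (add_zero n)) h
  · rw [z1, he1, hE0, ext_C, homE1_phi, Polynomial.coe_eval₂RingHom, Polynomial.eval₂_X, map_mul,
      LaurentSeries.coe_algebraMap, HahnSeries.ofPowerSeries_C, HahnSeries.ofPowerSeries_X]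
  · intro δ h1 h2
    apply IsLocalization.ringHom_ext (Submonoid.powers (PowerSeries.X : Pk k))
    ext1 F
    rw [RingHom.comp_apply, RingHom.comp_apply, RingHom.comp_apply, he1, hlm]
    congr 1
    ext n
    rw [PowerSeries.coeff_map, hE0, homE1_ext_coeff, map_sum]
    refine Finset.sum_congr rfl fun ij _ => ?_
    rw [map_mul, map_pow, h2, ← RingHom.comp_apply, h1]

end Pool.Agent.Helper54.FP
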